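import Pool.Agent.Helper296.Ovals.Main
import Pool.Agent.Helper490.SphereMeasure

/-!
# The ovals problem: the lower bound `324/343` for every closed space curve

For every closed unit-speed `C²` curve `γ` of length `2π` in `ℝ³` the principal eigenvalue of
`-d²/ds² + κ²` is at least `324/343 = 0.9446...` (the best bound known so far is `0.6085`).

Idea of the proof.  Put `T = γ'`.  For a direction `b` on the unit sphere the function `b·T`
changes sign, and the (vectorial) Dirichlet inequality on the set where `b·T > 0`, applied to the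
test function `φ T`, is averaged over all directions `b`.  The length of the set `{b·T>0}` enters
through `u ↦ u⁻²`, which is estimated from below by a tangent line; the resulting sign term
averages to a multiple of `∫ T = 0`.
-/

set_option autoImplicit false

open scoped ContDiff

namespace Pool.Agent.Results.MP_2801bd_mp.SpaceBound

/-- The sphere measure needed in `Pool.Helper296.Ovals.main_of_sphere`. -/
lemma sphereMeasure : ∃ ν, Pool.Helper296.Ovals.SphereMeasure ν := by
  obtain ⟨ν, h0, h1, h2, h3, h4⟩ := Pool.Helper490.Sphere.exists_sphere_measure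
  exact ⟨ν, h0, h1, h2, h3, h4⟩

/-- Every closed unit-speed curve of class `C²` and length `2π` in `ℝ³` satisfies
`e(γ) ≥ 324/343 > 0.9446`. -/
theorem result :
    ∀ γ : ℝ → EuclideanSpace ℝ (Fin 3),
      ContDiff ℝ 2 γ →
      Function.Periodic γ (2 * Real.pi) →
      (∀ s : ℝ, ‖deriv γ s‖ = 1) →
      ∀ φ : ℝ → ℝ,
        ContDiff ℝ 1 φ →
        Function.Periodic φ (2 * Real.pi) →
        (324 / 343 : ℝ) * (∫ s in (0 : ℝ)..(2 * Real.pi), (φ s) ^ 2) ≤
          ∫ s in (0 : ℝ)..(2 * Real.pi),
            ((deriv φ s) ^ 2 + ‖deriv (deriv γ) s‖ ^ 2 * (φ s) ^ 2) := by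
  intro γ hγ hγP hγ1 φ hφ hφP
  exact Pool.Helper296.Ovals.main_of_sphere sphereMeasure γ hγ hγP hγ1 φ hφ hφP

end Pool.Agent.Results.MP_2801bd_mp.SpaceBound
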